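import Pool.Agent.Y778.SL.Stm

/-!
# Thick sequences of nilpotent extensions of a field (S_Thick), project SL of helper778
-/

set_option autoImplicit false

namespace Pool.Agent.Y67.SL

open Pool.Agent.Y778.SL WittVector

theorem pow_coeff (p : ℕ) [Fact p.Prime] (k : Type) [Field k] [CharP k p] (n : ℕ)
    (x : WittVector p k) (hx : x ∈ RingHom.ker (constantCoeff : WittVector p k →+* k) ^ n) :
    ∀ i, i < n → x.coeff i = 0 := by
  suffices h : ∃ y : WittVector p k, x = (verschiebung^[n]) y by
    obtain ⟨y, rfl⟩ := h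
    intro i hi
    exact iterate_verschiebung_coeff_eq_zero y hi
  induction n generalizing x with
  | zero => exact ⟨x, rfl⟩
  | succ n ih =>
    rw [pow_succ] at hx
    refine Submodule.mul_induction_on hx ?_ ?_
    · intro a ha b hb
      obtain ⟨a', rfl⟩ := ih a ha
      obtain ⟨b', hb'⟩ : ∃ b' : WittVector p k, b = (verschiebung^[1]) b' := by
        refine ⟨b.shift 1, eq_iterate_verschiebung ?_⟩
        intro i hi
        have : i = 0 := by omega
        subst this
        exact hb
      rw [hb', iterate_verschiebung_mul]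
      exact ⟨_, rfl⟩
    · rintro a b ⟨a', ha⟩ ⟨b', hb⟩
      exact ⟨a' + b', by rw [ha, hb, iterate_map_add]⟩

/-- **SL-THICK.** -/
theorem thick : S_Thick := by
  intro k _
  obtain ⟨p, hp⟩ := CharP.exists k
  rcases CharP.char_is_prime_or_zero k p with hpr | h0
  · haveI : Fact p.Prime := ⟨hpr⟩
    set I : Ideal (WittVector p k) := RingHom.ker (constantCoeff : WittVector p k →+* k) with hI
    have hle : ∀ n : ℕ, ∀ a : WittVector p k, a ∈ I ^ (n + 1) → constantCoeff a = 0 := by
      intro n a ha
      exact (Ideal.pow_le_self (Nat.succ_ne_zero n)) ha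
    refine ⟨fun n => WittVector p k ⧸ I ^ (n + 1), fun n => inferInstance,
      fun n => Ideal.Quotient.lift (I ^ (n + 1)) constantCoeff (hle n), ?_, ?_⟩
    · intro n
      refine ⟨?_, n + 1, ?_⟩
      · intro a
        refine ⟨Ideal.Quotient.mk _ (teichmuller p a), ?_⟩
        rw [Ideal.Quotient.lift_mk]
        exact teichmuller_coeff_zero p a
      · have hker : RingHom.ker (Ideal.Quotient.lift (I ^ (n + 1)) constantCoeff (hle n)) =
            I.map (Ideal.Quotient.mk (I ^ (n + 1))) := Ideal.ker_quotient_lift _ _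
        rw [hker, ← Ideal.map_pow, Ideal.map_quotient_self]
    · intro m hm
      obtain ⟨s, m', hm', hms⟩ : ∃ (s : ℕ) (m' : ℤ), ¬ (p : ℤ) ∣ m' ∧ m = (p : ℤ) ^ s * m' := by
        have hfin : FiniteMultiplicity (p : ℤ) m := by
          rw [Int.finiteMultiplicity_iff]
          refine ⟨?_, hm⟩
          simpa using hpr.ne_one
        obtain ⟨c, hc1, hc2⟩ := hfin.exists_eq_pow_mul_and_not_dvd
        exact ⟨_, c, hc2, hc1⟩
      refine ⟨s, ?_⟩
      intro a ha h
      obtain ⟨b, rfl⟩ := Ideal.Quotient.mk_surjective a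
      rw [Ideal.Quotient.lift_mk] at ha
      have hb : IsUnit b := isUnit_of_coeff_zero_ne_zero b ha
      have hm'u : IsUnit ((m' : ℤ) : WittVector p k) := by
        apply isUnit_of_coeff_zero_ne_zero
        have h1 : (constantCoeff : WittVector p k →+* k) ((m' : ℤ) : WittVector p k) = (m' : k) :=
          map_intCast _ _
        intro h2
        apply hm'
        rw [← CharP.intCast_eq_zero_iff k p m', ← h1]
        exact h2
      have h3 : ((m : ℤ) : WittVector p k) * b ∈ I ^ (s + 1) := by
        rw [← Ideal.Quotient.eq_zero_iff_mem, map_mul, map_intCast]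
        exact h
      have h4 : ((p : WittVector p k)) ^ s ∈ I ^ (s + 1) := by
        have h5 : ((m : ℤ) : WittVector p k) * b = (p : WittVector p k) ^ s *
            (((m' : ℤ) : WittVector p k) * b) := by
          rw [hms]
          push_cast
          ring
        rw [h5] at h3
        obtain ⟨w, hw⟩ := (hm'u.mul hb).exists_right_inv
        have h6 := Ideal.mul_mem_right w _ h3
        rwa [mul_assoc, hw, mul_one] at h6
      have h7 := pow_coeff p k (s + 1) _ h4 s (Nat.lt_succ_self s)
      rw [coeff_p_pow] at h7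
      exact one_ne_zero h7
  · subst h0
    haveI : CharZero k := CharP.charP_to_charZero k
    refine ⟨fun _ => k, fun _ => inferInstance, fun _ => RingHom.id k, ?_, ?_⟩
    · intro n
      refine ⟨fun a => ⟨a, rfl⟩, 1, ?_⟩
      rw [pow_one]
      exact (RingHom.injective_iff_ker_eq_bot _).mp Function.injective_id
    · intro m hm
      exact ⟨0, fun a ha => mul_ne_zero (Int.cast_ne_zero.mpr hm) ha⟩

end Pool.Agent.Y67.SL
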